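import Pool.Agent.Helper45.L.Defs
import Pool.Agent.SC.Weights
import Pool.Agent.SC.G5
import Pool.Agent.SC.CoverKur0
import Pool.Agent.Helper17.FF.PicDiv

/-!
# Project L, block K2: the level form of the weights in mixed characteristic
-/

set_option autoImplicit false

namespace Pool.Agent.L

open VC IntermediateField Pool.Agent.SC

/-- **Block K2.** -/
theorem stmtK2 (hK1 : StmtK1) : StmtK2 := by
  classical
  intro E U _ _ _ _ _ M hc N hN b ℓ hℓ hb hb1 hno
  have hcU : CharZero U := charZero_of_injective_algebraMap (algebraMap E U).injective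
  have hcN : CharZero N := charZero_of_injective_algebraMap (algebraMap E N).injective
  -- the eigenvector
  obtain ⟨x₀, hx₀⟩ : ∃ x, b x ≠ x := by
    by_contra hcon
    push Not at hcon
    exact hb1 (AlgEquiv.ext hcon)
  obtain ⟨ζ, hζ, v, -, hv0, hv⟩ := exists_eigenvector hℓ hb (N := ⊤) (fun x _ => trivial)
    (x := x₀) trivial hx₀
  -- the fixed field
  have htop : IsFunctionField E (⊤ : IntermediateField E N) :=
    isFunctionField_of_equiv (IntermediateField.topEquiv (F := E) (E := N)).symm hN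
  let Y : IntermediateField E N := fixedIn b ⊤
  have hY : IsFunctionField E Y := isFunctionField_fixedIn (fun x _ => trivial) hℓ.pos hb htop
  have hfixY : ∀ y : Y, b (y : N) = y := fun y => y.2.2
  have huY : v ^ ℓ ∈ Y := by
    refine ⟨trivial, ?_⟩
    rw [map_pow, hv, mul_pow, ← map_pow, hζ.pow_eq_one, map_one, one_mul]
  let g : Y := ⟨v ^ ℓ, huY⟩
  have hg0 : g ≠ 0 := fun h => pow_ne_zero ℓ hv0 (congrArg Subtype.val h)
  -- the orders are divisible by `ℓ`
  have hdvd : ∀ P : Place E Y, (ℓ : ℤ) ∣ ord P.ring g := by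
    intro P
    by_contra hnd
    obtain ⟨Q, hQ⟩ := SC.exists_place_over (K := E) (N := N) P
    obtain ⟨x, hx, hbx⟩ := hno Q
    apply hbx
    refine map_mem_of_not_dvd (Y := Y) (R := Q.ring) Q.algebraMap_mem
      (σ := b) hℓ hb ?_ hζ (v := v) hv0 hv ?_ hx
    · intro z hz
      exact ⟨⟨z, trivial, hz⟩, rfl⟩
    · intro c hc
      have h1 : Q.ring.valuation (algebraMap Y N g) = Q.ring.valuation (algebraMap Y N (c ^ ℓ)) := by
        rw [map_pow]
        exact hc
      have hc0 : c ^ ℓ ≠ 0 := by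
        intro h
        rw [h, map_zero, map_zero, Valuation.zero_iff, map_eq_zero] at h1
        exact hg0 h1
      rw [val_eq_iff_ord_eq hY P hQ hg0 hc0] at h1
      apply hnd
      rw [h1, FF.ord_pow hY P (fun h => hc0 (by rw [h, zero_pow hℓ.ne_zero]))]
      exact dvd_mul_right _ _
  -- the ring
  have hRN := FF.riemann hY
  have hPN := FF.picDiv hY
  obtain ⟨P0⟩ : Nonempty (Place E Y) := by
    have hN2 := hY
    obtain ⟨t, ht, -⟩ := hN2
    obtain ⟨P, -⟩ := exists_place hY ht
    exact ⟨P⟩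
  obtain ⟨hDed, hFrac⟩ := isDedekind_ringAway hY hRN P0
  have hB := onePt_ringAway hY hRN P0
  let jY : Y →+* U := (algebraMap N U).comp (algebraMap Y N)
  let iBU : Algebra (ringAway P0) U := (jY.comp (algebraMap (ringAway P0) Y)).toAlgebra
  have hTB : IsScalarTower E (ringAway P0) U := IsScalarTower.of_algebraMap_eq fun x => rfl
  have hinj : Function.Injective (algebraMap (ringAway P0) U) := by
    intro x y hxy
    have h1 : (((x : Y) : N) : U) = (((y : Y) : N) : U) := hxy
    exact Subtype.ext (Subtype.ext (Subtype.ext h1))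
  have hroot : ∀ I : Ideal (ringAway P0), PowTor ℓ I → ∃ w' : U, RootOf ℓ I w' := by
    rintro I ⟨hI, n, ⟨⟨c, hc'⟩⟩⟩
    have hb' : I ^ ℓ ^ n = Ideal.span {c} := hc'
    have hb0 : c ≠ 0 := by
      rintro rfl
      rw [Ideal.span_singleton_zero] at hb'
      exact hI (pow_eq_zero_iff (pow_ne_zero n hℓ.ne_zero) |>.1 hb')
    have hn : 0 < ℓ ^ n := pow_pos hℓ.pos n
    have hbN : (c : Y) ≠ 0 := fun h => hb0 (Subtype.ext h)
    have hdv := dvd_ord_of_ideal hY hRN P0 c hb0 hn hb'.symm
    obtain ⟨w', hw'⟩ : ∃ w : U, w ^ ℓ ^ n = jY (c : Y) := by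
      refine hc.root _ _ hn fun W hW => ?_
      by_cases htopW : W.comap jY = ⊤
      · refine ⟨1, ?_⟩
        have hmem : ∀ x : Y, jY x ∈ W := by
          intro x
          have : x ∈ W.comap jY := by rw [htopW]; trivial
          exact this
        have h1 : W.valuation (jY (c : Y)) ≤ 1 := (W.valuation_le_one_iff _).2 (hmem _)
        have h2 : W.valuation (jY (c : Y)⁻¹) ≤ 1 := (W.valuation_le_one_iff _).2 (hmem _)
        have h5 : W.valuation (jY (c : Y)) ≠ 0 :=
          (Valuation.ne_zero_iff _).2 ((map_ne_zero jY).2 hbN)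
        rw [map_inv₀, map_inv₀] at h2
        rw [one_pow, map_one]
        exact le_antisymm h1 ((inv_le_one₀ (zero_lt_iff.2 h5)).1 h2)
      · let P : Place E Y := ⟨W.comap jY, fun c => hW c, htopW⟩
        obtain ⟨q, hq⟩ := hdv P
        obtain ⟨π, hπ0, hπ⟩ := FF.exists_ord_eq hY P q
        refine ⟨jY π, ?_⟩
        let iYU : Algebra Y U := jY.toAlgebra
        have h1 : W.valuation (algebraMap Y U (c : Y)) =
            W.valuation (algebraMap Y U (π ^ ℓ ^ n)) := by
          refine (val_eq_iff_ord_eq (N := U) (R := W) hY P (fun z => Iff.rfl) hbN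
            (pow_ne_zero _ hπ0)).2 ?_
          rw [FF.ord_pow hY P hπ0, hπ, hq]
        rw [map_pow] at h1
        exact h1
    exact ⟨w', hI, n, c, hb', hw'⟩
  -- the function `v ^ ℓ`
  obtain ⟨x, y, hy, hxy⟩ := IsFractionRing.div_surjective (A := ringAway P0) g
  have hy0 : y ≠ 0 := nonZeroDivisors.ne_zero hy
  have hyN : (y : Y) ≠ 0 := fun h => hy0 (Subtype.ext h)
  have hxy' : (x : Y) = g * y := by
    have h1 : (x : Y) / (y : Y) = g := hxy
    rw [← h1]; field_simp
  let c : ringAway P0 := y ^ (ℓ - 1) * x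
  have hbg : (c : Y) = (y : Y) ^ ℓ * g := by
    have h1 : (c : Y) = (y : Y) ^ (ℓ - 1) * x := rfl
    rw [h1, hxy']
    conv_rhs => rw [← Nat.sub_add_cancel hℓ.one_le, pow_succ]
    ring
  have hc0 : c ≠ 0 := by
    intro h
    have h1 : (c : Y) = 0 := congrArg Subtype.val h
    rw [hbg] at h1
    rcases mul_eq_zero.1 h1 with h2 | h2
    · exact pow_ne_zero ℓ hyN h2
    · exact hg0 h2
  obtain ⟨I, hI⟩ := exists_root_ideal hY hRN P0 c hc0 hℓ.pos (fun P _ => by
    rw [hbg, FF.ord_mul hY P (pow_ne_zero ℓ hyN) hg0, FF.ord_pow hY P hyN]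
    exact dvd_add (dvd_mul_right _ _) (hdvd P))
  have hIbot : I ≠ ⊥ := by
    rintro rfl
    have h1 : (⊥ : Ideal (ringAway P0)) ^ ℓ = ⊥ := zero_pow hℓ.ne_zero
    rw [h1, Ideal.span_singleton_eq_bot] at hI
    exact hc0 hI
  let wN : N := ((y : Y) : N) * v
  have hRI : RootOf ℓ I (wN : U) := by
    refine ⟨hIbot, 1, c, by rw [pow_one, hI], ?_⟩
    have h1 : algebraMap (ringAway P0) U c = (((c : Y) : N) : U) := rfl
    rw [pow_one, h1, hbg]
    have h2 : (wN : U) ^ ℓ = ((wN ^ ℓ : N) : U) := rfl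
    rw [h2]
    congr 1
    change (((y : Y) : N) * v) ^ ℓ = _
    rw [mul_pow]
    rfl
  obtain ⟨Z₁, S, hZ₁, hS, hmain⟩ := @hK1 E U (ringAway P0) _ _ _ _ _ _ _ hDed _ iBU hTB
    (degAway P0) hB hinj (div_ringAway hY hRN hPN P0) ℓ hℓ hroot I (wN : U) hRI
  refine ⟨Z₁.preimage (fun z : N => (z : U)) (Subtype.val_injective.injOn) ∪ {wN}, S, hS, ?_⟩
  intro O σ τ p f h T hFP hSO hh hT
  have hZN : ∀ z ∈ Z₁, ∃ z' : N, (z' : U) = z ∧ b z' = z' := by
    intro z hz
    obtain ⟨e, rfl⟩ := hZ₁ z hz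
    exact ⟨((e : Y) : N), rfl, hfixY _⟩
  have hζ1 : ζ = 1 := by
    refine hmain O σ τ p f h T hFP hSO ?_ ?_ ζ hζ.pow_eq_one ?_
    · intro z hz
      obtain ⟨z', hz', -⟩ := hZN z hz
      rw [← hz']
      refine hh z' (Finset.mem_union_left _ (Finset.mem_preimage.2 ?_))
      rw [hz']
      exact hz
    · intro z hz
      obtain ⟨z', hz', hbz⟩ := hZN z hz
      rw [← hz']
      refine (hT z' (Finset.mem_union_left _ (Finset.mem_preimage.2 ?_))).trans ?_
      · rw [hz']
        exact hz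
      · rw [hbz]
    · rw [hT wN (Finset.mem_union_right _ (Finset.mem_singleton_self _))]
      have h1 : b wN = algebraMap E N ζ * wN := by
        change b (((y : Y) : N) * v) = _
        rw [map_mul, hfixY, hv]
        change _ = algebraMap E N ζ * (((y : Y) : N) * v)
        ring
      rw [h1]
      rfl
  exact hζ.ne_one hℓ.one_lt hζ1

end Pool.Agent.L
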