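import Pool.Agent.Helper45.L.Defs

/-!
# Project L, block LOC: the local theorem, with the algebraic closure of Mathlib
-/

set_option autoImplicit false
set_option linter.unusedSectionVars false

namespace Pool.Agent.L

open VC IntermediateField Pool.Agent.SC NumberField
open Pool.Agent.HG (Pr nm IsOdd)

section transport

variable {k E E' : Type} [Field k] [NumberField k] [Field E] [Algebra k E] [Field E'] [Algebra k E']
  (e : E ≃ₐ[k] E')

/-- the valuation ring of `E'` which corresponds to `O` -/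
def tO (O : ValuationSubring E) : ValuationSubring E' := O.comap (e.symm : E' →+* E)

theorem mem_tO (O : ValuationSubring E) (z : E') : z ∈ tO e O ↔ e.symm z ∈ O := Iff.rfl

theorem val_le_tO (O : ValuationSubring E) (a b : E') :
    (tO e O).valuation a ≤ (tO e O).valuation b ↔
      O.valuation (e.symm a) ≤ O.valuation (e.symm b) := by
  by_cases hb : b = 0
  · rw [hb, map_zero, map_zero, map_zero, le_zero_iff, le_zero_iff, Valuation.zero_iff,
      Valuation.zero_iff, map_eq_zero]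
  · have hb1 : (tO e O).valuation b ≠ 0 := (Valuation.ne_zero_iff _).2 hb
    have hb2 : O.valuation (e.symm b) ≠ 0 :=
      (Valuation.ne_zero_iff _).2 ((map_ne_zero e.symm).2 hb)
    rw [← div_le_one₀ (zero_lt_iff.2 hb1), ← div_le_one₀ (zero_lt_iff.2 hb2), ← map_div₀,
      ← map_div₀, ← map_div₀, ValuationSubring.valuation_le_one_iff,
      ValuationSubring.valuation_le_one_iff, mem_tO]

theorem val_lt_tO (O : ValuationSubring E) (a b : E') :
    (tO e O).valuation a < (tO e O).valuation b ↔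
      O.valuation (e.symm a) < O.valuation (e.symm b) := by
  rw [← not_le, ← not_le, val_le_tO]

theorem val_lt_one_tO (O : ValuationSubring E) (a : E') :
    (tO e O).valuation a < 1 ↔ O.valuation (e.symm a) < 1 := by
  have h1 := val_lt_tO e O a 1
  rwa [map_one, map_one, map_one] at h1

/-- the automorphism of `E'` which corresponds to `g` -/
def tA (g : E ≃ₐ[k] E) : E' ≃ₐ[k] E' := (e.symm.trans g).trans e

theorem tA_apply (g : E ≃ₐ[k] E) (z : E') : tA e g z = e (g (e.symm z)) := rfl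

theorem symm_tA (g : E ≃ₐ[k] E) (z : E') : e.symm (tA e g z) = g (e.symm z) := by
  rw [tA_apply, AlgEquiv.symm_apply_apply]

/-- the automorphism of `E` which corresponds to `g` -/
def tB (g : E' ≃ₐ[k] E') : E ≃ₐ[k] E := (e.trans g).trans e.symm

theorem tB_apply (g : E' ≃ₐ[k] E') (z : E) : tB e g z = e.symm (g (e z)) := rfl

theorem tB_symm (g : E' ≃ₐ[k] E') (z : E') : tB e g (e.symm z) = e.symm (g z) := by
  rw [tB_apply, AlgEquiv.apply_symm_apply]

theorem tB_mul (g g' : E' ≃ₐ[k] E') : tB e (g * g') = tB e g * tB e g' := by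
  apply AlgEquiv.ext
  intro z
  rw [AlgEquiv.mul_apply, tB_apply, tB_apply, tB_apply, AlgEquiv.apply_symm_apply]
  rfl

theorem tB_one : tB e (1 : E' ≃ₐ[k] E') = 1 := by
  apply AlgEquiv.ext
  intro z
  rw [tB_apply]
  exact e.symm_apply_apply z

theorem tB_inv (g : E' ≃ₐ[k] E') : tB e g⁻¹ = (tB e g)⁻¹ := by
  rw [eq_inv_iff_mul_eq_one, ← tB_mul, inv_mul_cancel, tB_one]

theorem tB_pow (g : E' ≃ₐ[k] E') (n : ℕ) : tB e (g ^ n) = (tB e g) ^ n := by
  induction n with
  | zero => rw [pow_zero, pow_zero, tB_one]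
  | succ n ih => rw [pow_succ, pow_succ, tB_mul, ih]

theorem Inert.tB' {O : ValuationSubring E} {τ : E' ≃ₐ[k] E'} (h : Inert (tO e O) τ.toRingEquiv) :
    Inert O (tB e τ).toRingEquiv := by
  refine ⟨fun z => ?_, fun z hz => ?_⟩
  · have h1 := h.stab (e z)
    rw [mem_tO, mem_tO, AlgEquiv.symm_apply_apply] at h1
    exact h1
  · have h1 := h.res (e z) (by rw [mem_tO, AlgEquiv.symm_apply_apply]; exact hz)
    rw [val_lt_one_tO, map_sub, AlgEquiv.symm_apply_apply] at h1
    exact h1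

theorem Inert.tA' {O : ValuationSubring E} {τ : E ≃ₐ[k] E} (h : Inert O τ.toRingEquiv) :
    Inert (tO e O) (tA e τ).toRingEquiv := by
  refine ⟨fun z => ?_, fun z hz => ?_⟩
  · have h1 := h.stab (e.symm z)
    change tA e τ z ∈ tO e O ↔ _
    rw [mem_tO, mem_tO, symm_tA]
    exact h1
  · have h1 := h.res (e.symm z) hz
    change (tO e O).valuation (tA e τ z - z) < 1
    rw [val_lt_one_tO, map_sub, symm_tA]
    exact h1

theorem isFrobAt_t {O : ValuationSubring E} {F : E ≃ₐ[k] E} {p f : ℕ}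
    (h : IsFrobAt O F.toRingEquiv p f) : IsFrobAt (tO e O) (tA e F).toRingEquiv p f := by
  refine ⟨h.prime, h.pos, ?_, ?_, ?_, ?_, ?_⟩
  · intro a c ha hc
    rw [val_lt_one_tO] at ha
    obtain ⟨N, hN⟩ := h.rank (e.symm a) (e.symm c) ha ((map_ne_zero e.symm).2 hc)
    refine ⟨N, ?_⟩
    rw [val_lt_tO, map_pow]
    exact hN
  · rw [val_lt_one_tO, map_natCast]
    exact h.residue
  · intro z
    change tA e F z ∈ tO e O ↔ _
    rw [mem_tO, mem_tO, symm_tA]
    exact h.stable _
  · intro z hz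
    change (tO e O).valuation (tA e F z - z ^ p ^ f) < 1
    rw [val_lt_one_tO, map_sub, symm_tA, map_pow]
    exact h.frob _ hz
  · intro z
    obtain ⟨n, hn, h1⟩ := h.orb (e.symm z)
    refine ⟨n, hn, ?_⟩
    have h2 : ∀ n : ℕ, ((tA e F)^[n]) z = e ((F^[n]) (e.symm z)) := by
      intro n
      induction n with
      | zero => exact (e.apply_symm_apply z).symm
      | succ n ih =>
        rw [Function.iterate_succ_apply', Function.iterate_succ_apply', ih, tA_apply,
          AlgEquiv.symm_apply_apply]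
    have h3 : (F^[n]) (e.symm z) = e.symm z := h1
    change ((tA e F)^[n]) z = z
    rw [h2, h3, AlgEquiv.apply_symm_apply]

theorem decPt_t {v : Pr k} {O : ValuationSubring E} {F : E ≃ₐ[k] E} {p f : ℕ}
    (h : DecPt v O F p f) : DecPt v (tO e O) (tA e F) p f := by
  refine ⟨?_, h.norm, isFrobAt_t e h.frob, ?_, ?_⟩
  · intro x
    rw [mem_tO, AlgEquiv.commutes]
    exact h.above x
  · intro c hc
    obtain ⟨τ, hτ, h1⟩ := h.odd c hc
    refine ⟨tA e τ, hτ.tA' e, ?_⟩
    intro d hd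
    have h2 := h1 (e.symm d) (by rw [← map_pow, hd, AlgEquiv.commutes])
    rw [tA_apply, h2, map_neg, AlgEquiv.apply_symm_apply]
  · intro γ τ hγ hτ L hL m hm
    obtain ⟨a, j, h1, h2⟩ := h.tame (tB e γ) (tB e τ) (fun z => by
      rw [tB_apply, ← mem_tO e, hγ, mem_tO, AlgEquiv.symm_apply_apply]) (hτ.tB' e)
      (L.map (e.symm : E' →ₐ[k] E)) (by
        have h3 : FiniteDimensional k L := hL
        exact (L.equivMap (e.symm : E' →ₐ[k] E)).toLinearEquiv.finiteDimensional) m hm
    refine ⟨a, j, fun ζ hζ => ?_, fun z hz => ?_⟩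
    · have h3 := h1 (e.symm ζ) (by rw [← map_pow, hζ, map_one])
      rw [tB_symm, ← map_pow] at h3
      exact e.symm.injective h3
    · have h3 := h2 (e.symm z) ⟨z, hz, rfl⟩
      rw [← tB_pow, ← tB_inv, ← tB_inv, ← tB_mul, ← tB_mul, ← tB_mul, ← tB_pow, tB_symm] at h3
      exact e.symm.injective h3

theorem fixesBranch_t {K0 : Type} [Field K0] [Algebra k K0] {h : K0} {g : E ≃ₐ[k] E}
    (hg : FixesBranch h g) : FixesBranch h (tA e g) := by
  obtain ⟨P, φ, h1, h2, h3, h4⟩ := hg
  refine ⟨P, (e : E →+* E').comp φ, h1, h2, fun a x hx => ?_, fun x => ?_⟩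
  · change e (φ x) = _
    rw [h3 a x hx, AlgEquiv.commutes]
  · change tA e g (e (φ x)) = e (φ x)
    rw [tA_apply, AlgEquiv.symm_apply_apply, h4]

end transport

/-- **Block LOC.** -/
theorem stmtLOC (hTR : StmtTR) (hK5 : StmtK5) (hFR : StmtFR) : StmtLOC := by
  intro k K0 _ _ _ _ h hgood
  obtain ⟨E, U, i1, i2, i3, i4, i5, i6, i7, i8, r, hgeo, hsec⟩ := hTR k K0 h hgood
  obtain ⟨Bad, hBad, hmain⟩ := hK5 k K0 E U h r hgeo
  refine ⟨Bad, hBad, ?_⟩
  intro v hv c hc hodd hs
  have hac : IsAlgClosed E := hgeo.clE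
  have halg : Algebra.IsAlgebraic k E := hgeo.algE
  obtain ⟨Φ, hΦ⟩ := hsec c hc hs
  obtain ⟨O, F, p, f, hD⟩ := hFR k E v
  have h1 := hmain v hv c hc hodd Φ hΦ O F p f hD
  have hcl : IsAlgClosure k E := ⟨hac, halg⟩
  let e : E ≃ₐ[k] AlgebraicClosure k := IsAlgClosure.equiv k E (AlgebraicClosure k)
  exact ⟨tO e O, tA e F, p, f, decPt_t e hD, fixesBranch_t e h1⟩

end Pool.Agent.L
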